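import Pool.Agent.U260.GZ.Stm

/-!
# Project GDZ (helper260), package BC: bound of a block, with a saving if the block is long
-/

set_option autoImplicit false

namespace Pool.Agent.U394.GZ

open Complex Filter Topology MeasureTheory Set
open Pool.Agent.N879.GD

lemma half_rpow {x : ℝ} (hx : 0 ≤ x) : x ^ (-(1 / 2 : ℝ)) = (√x)⁻¹ := by
  rw [Real.rpow_neg hx, Real.sqrt_eq_rpow]

lemma core_eq {W z : ℝ} (hW : 0 < W) (hz : 0 < z) :
    W ^ (-(1 / 2 : ℝ)) * (W / z) ^ 4 = √(W / z) ^ 7 / √z := by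
  have hv : 0 < W / z := div_pos hW hz
  have hs : 0 < √(W / z) := Real.sqrt_pos.2 hv
  have hz' : 0 < √z := Real.sqrt_pos.2 hz
  have h1 : √W = √(W / z) * √z := by
    rw [← Real.sqrt_mul hv.le, div_mul_cancel₀ _ hz.ne']
  have h2 : √(W / z) ^ 2 = W / z := Real.sq_sqrt hv.le
  rw [half_rpow hW.le, h1, ← h2]
  have h4 : √(√(W / z) ^ 2) = √(W / z) := Real.sqrt_sq hs.le
  rw [h4]
  generalize √(W / z) = s at *
  generalize √z = q at *
  field_simp

lemma E_le {w z : ℝ} (hz : 1 ≤ z) : Real.exp (-(w / (4 * z))) ≤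
    Real.exp 1 * Real.exp (-((1 + w) / z / 4)) := by
  rw [← Real.exp_add]
  refine Real.exp_le_exp.2 ?_
  have hz0 : 0 < z := by linarith
  have h1 : (1 + w) / z / 4 = 1 / (4 * z) + w / (4 * z) := by
    field_simp
  have h2 : 1 / (4 * z) ≤ 1 := by
    rw [div_le_one (by positivity)]
    linarith
  rw [h1]
  linarith

lemma pol {v : ℝ} (hv : 0 ≤ v) : (1 + v) ^ 5 * Real.exp (-(v / 4)) ≤ 122880 * Real.exp 1 := by
  have h := Real.pow_div_factorial_le_exp ((1 + v) / 4) (by positivity) 5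
  have h5 : ((5 : ℕ).factorial : ℝ) = 120 := by norm_num [Nat.factorial]
  rw [h5, div_le_iff₀ (by norm_num)] at h
  have h1 : (1 + v) ^ 5 = 1024 * ((1 + v) / 4) ^ 5 := by ring
  have h2 : (1 + v) ^ 5 ≤ 122880 * Real.exp ((1 + v) / 4) := by
    rw [h1]
    linarith
  have h3 : Real.exp ((1 + v) / 4) * Real.exp (-(v / 4)) ≤ Real.exp 1 := by
    rw [← Real.exp_add]
    refine Real.exp_le_exp.2 ?_
    linarith
  calc (1 + v) ^ 5 * Real.exp (-(v / 4)) ≤ 122880 * Real.exp ((1 + v) / 4) * Real.exp (-(v / 4)) :=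
        mul_le_mul_of_nonneg_right h2 (Real.exp_pos _).le
    _ = 122880 * (Real.exp ((1 + v) / 4) * Real.exp (-(v / 4))) := by ring
    _ ≤ 122880 * Real.exp 1 := by linarith

lemma sp {s : ℝ} (hs : 0 ≤ s) : s ^ 7 ≤ (1 + s ^ 2) ^ 5 ∧ s ^ 9 ≤ (1 + s ^ 2) ^ 5 ∧
    s ^ 7 * (1 + s ^ 2) ≤ (1 + s ^ 2) ^ 5 := by
  have h1 : s ≤ 1 + s ^ 2 := by nlinarith [sq_nonneg (s - 1)]
  have h2 : s ^ 2 ≤ 1 + s ^ 2 := by linarith
  have h3 : (1 : ℝ) ≤ 1 + s ^ 2 := by linarith [sq_nonneg s]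
  have h4 : 0 ≤ s ^ 2 := sq_nonneg s
  have h7 : s ^ 7 ≤ (1 + s ^ 2) ^ 4 := by
    calc s ^ 7 = s * (s ^ 2) ^ 3 := by ring
      _ ≤ (1 + s ^ 2) * (1 + s ^ 2) ^ 3 :=
          mul_le_mul h1 (pow_le_pow_left₀ h4 h2 3) (by positivity) (by positivity)
      _ = (1 + s ^ 2) ^ 4 := by ring
  have h9 : s ^ 9 ≤ (1 + s ^ 2) ^ 5 := by
    calc s ^ 9 = s * (s ^ 2) ^ 4 := by ring
      _ ≤ (1 + s ^ 2) * (1 + s ^ 2) ^ 4 :=
          mul_le_mul h1 (pow_le_pow_left₀ h4 h2 4) (by positivity) (by positivity)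
      _ = (1 + s ^ 2) ^ 5 := by ring
  refine ⟨h7.trans (pow_le_pow_right₀ h3 (by norm_num)), h9, ?_⟩
  calc s ^ 7 * (1 + s ^ 2) ≤ (1 + s ^ 2) ^ 4 * (1 + s ^ 2) :=
        mul_le_mul_of_nonneg_right h7 (by positivity)
    _ = (1 + s ^ 2) ^ 5 := by ring

lemma log_ge {m R : ℝ} (hm : 0 < m) (hR : 0 < R) : R / (m + R) ≤ Real.log (1 + R / m) := by
  have h := Real.one_sub_inv_le_log_of_pos (x := 1 + R / m) (by positivity)
  refine le_trans (le_of_eq ?_) h
  have e : 1 + R / m = (m + R) / m := by field_simp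
  rw [e, inv_div, eq_sub_iff_add_eq, ← add_div, add_comm R m, div_self (by positivity)]

lemma geo {m R T z : ℝ} (hm : 0 < m) (hR : 0 < R) (hT : 0 < T)
    (hz : z = T * Real.log (1 + R / m)) :
    (√(m * (m + R)))⁻¹ * R / √z ≤ √(R / m) * T ^ (-(1 / 2 : ℝ)) := by
  have hl := log_ge hm hR
  have hl0 : 0 < Real.log (1 + R / m) := lt_of_lt_of_le (by positivity) hl
  have hz0 : 0 < z := by rw [hz]; positivity
  have hzs : 0 < √z := Real.sqrt_pos.2 hz0
  have hq : 0 < √(m * (m + R)) := Real.sqrt_pos.2 (by positivity)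
  have hTs : 0 < √T := Real.sqrt_pos.2 hT
  rw [half_rpow hT.le, div_le_iff₀ hzs, inv_mul_le_iff₀ hq]
  have e : √(m * (m + R)) * (√(R / m) * (√T)⁻¹ * √z) = √(R * ((m + R) * Real.log (1 + R / m))) := by
    have h1 : (√T)⁻¹ * √z = √(Real.log (1 + R / m)) := by
      rw [hz, Real.sqrt_mul hT.le]
      field_simp
    calc √(m * (m + R)) * (√(R / m) * (√T)⁻¹ * √z) =
        √(m * (m + R)) * √(R / m) * ((√T)⁻¹ * √z) := by ring
      _ = √(R * ((m + R) * Real.log (1 + R / m))) := by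
          rw [h1, ← Real.sqrt_mul (by positivity), ← Real.sqrt_mul (by positivity)]
          congr 1
          field_simp
  rw [e]
  refine Real.le_sqrt_of_sq_le ?_
  have h3 : R ≤ (m + R) * Real.log (1 + R / m) := by
    rw [div_le_iff₀ (by positivity)] at hl
    linarith
  nlinarith

theorem t_BC (h1 : S_BA) (h2 : S_BB) : Pool.Agent.U260.GZ.S_BC := by
  obtain ⟨η, hη0, hη1, hBB⟩ := h2
  obtain ⟨CB, hCB, hB⟩ := hBB 4 (by norm_num)
  obtain ⟨CA, hCA, hA⟩ := h1 4 (by norm_num)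
  obtain ⟨K, hK⟩ : ∃ K : ℝ, K = Real.exp 1 * (122880 * Real.exp 1) := ⟨_, rfl⟩
  have hK0 : 0 < K := by rw [hK]; positivity
  refine ⟨η / 8, 4, by positivity, by linarith, le_rfl, K * (CA + 5 * CB), 6561, by positivity,
    by norm_num, ?_⟩
  intro σ T y ω m R L hσ0 hσ1 hT hm hR hL hmR
  have hT0 : 0 < T := by linarith
  have hT1 : 1 ≤ T := by linarith
  obtain ⟨a, ha⟩ : ∃ a : ℝ, a = T ^ (1 / 8 : ℝ) := ⟨_, rfl⟩
  have ha0 : 0 < a := by rw [ha]; positivity
  have hap : ∀ k : ℕ, a ^ k = T ^ ((k : ℝ) / 8) := by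
    intro k
    rw [ha, ← Real.rpow_natCast, ← Real.rpow_mul hT0.le]
    congr 1
    ring
  have hTa : T = a ^ 8 := by
    rw [hap 8]
    norm_num
  have ha3 : 3 ≤ a := by
    by_contra h
    push Not at h
    have h3 := pow_lt_pow_left₀ h ha0.le (by norm_num : 8 ≠ 0)
    rw [← hTa] at h3
    norm_num at h3
    linarith
  have hm1 : (1 : ℝ) ≤ m := by exact_mod_cast hm
  have hR1 : (1 : ℝ) ≤ R := by exact_mod_cast hR
  have hm0 : (0 : ℝ) < m := by linarith
  have hR0 : (0 : ℝ) < R := by linarith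
  have hmR0 : (0 : ℝ) < m + R := by linarith
  have hma : (m : ℝ) ≤ a ^ 5 := by
    have e : T ^ (5 / 4 : ℝ) = (a ^ 5) ^ 2 := by
      rw [← pow_mul, hap]
      norm_num
    have h3 : (m : ℝ) ^ 2 ≤ (a ^ 5) ^ 2 := by
      rw [← e]
      refine le_trans ?_ hmR
      nlinarith
    exact (pow_le_pow_iff_left₀ hm0.le (by positivity) (by norm_num)).1 h3
  have hlog := log_ge hm0 hR0
  have hlog0 : 0 < Real.log (1 + (R : ℝ) / m) := lt_of_lt_of_le (by positivity) hlog
  obtain ⟨z, hz⟩ : ∃ z : ℝ, z = zz T m R := ⟨_, rfl⟩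
  have hzdef : z = T * Real.log (1 + (R : ℝ) / m) := hz
  obtain ⟨G, hG⟩ : ∃ G : ℝ, G = T * ((R : ℝ) / (m + R)) := ⟨_, rfl⟩
  have hGz : G ≤ z := by
    rw [hG, hzdef]
    exact mul_le_mul_of_nonneg_left hlog hT0.le
  have ha38 : 2 * a ^ 5 ≤ a ^ 8 := by
    have h3 : (2 : ℝ) ≤ a ^ 3 := by nlinarith [sq_nonneg a]
    calc 2 * a ^ 5 ≤ a ^ 3 * a ^ 5 := mul_le_mul_of_nonneg_right h3 (by positivity)
      _ = a ^ 8 := by ring
  have ha8 : 2 ≤ a ^ 8 := by rw [← hTa]; linarith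
  have hG1 : 1 ≤ G := by
    rw [hG, ← mul_div_assoc, le_div_iff₀ hmR0, hTa]
    have h3 : a ^ 8 ≤ a ^ 8 * R := le_mul_of_one_le_right (by positivity) hR1
    have h4 : 2 * R ≤ a ^ 8 * R := mul_le_mul_of_nonneg_right ha8 hR0.le
    linarith
  have hz1 : 1 ≤ z := hG1.trans hGz
  have hz0 : 0 < z := by linarith
  have hkz : kap m R * z = G := by
    rw [hzdef, hG]
    unfold kap
    calc (R : ℝ) / (m + R) / Real.log (1 + (R : ℝ) / m) * (T * Real.log (1 + (R : ℝ) / m))
        = T * ((R : ℝ) / (m + R)) * (Real.log (1 + (R : ℝ) / m) / Real.log (1 + (R : ℝ) / m)) := by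
          ring
      _ = T * ((R : ℝ) / (m + R)) := by rw [div_self hlog0.ne', mul_one]
  have hk1 : kap m R ≤ 1 := by
    unfold kap
    rw [div_le_one hlog0]
    exact hlog
  have hk0 : 0 < kap m R := by
    unfold kap
    positivity
  obtain ⟨W, hW⟩ : ∃ W : ℝ, W = 1 + |ω| := ⟨_, rfl⟩
  have hW1 : 1 ≤ W := by rw [hW]; linarith [abs_nonneg ω]
  have hW0 : 0 < W := by linarith
  obtain ⟨v, hv⟩ : ∃ v : ℝ, v = W / z := ⟨_, rfl⟩
  have hv0 : 0 < v := by rw [hv]; positivity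
  obtain ⟨s, hs⟩ : ∃ s : ℝ, s = √v := ⟨_, rfl⟩
  have hs0 : 0 < s := by rw [hs]; exact Real.sqrt_pos.2 hv0
  have hs2 : s ^ 2 = v := by rw [hs]; exact Real.sq_sqrt hv0.le
  have hcore : W ^ (-(1 / 2 : ℝ)) * v ^ 4 = s ^ 7 / √z := by
    rw [hs, hv]
    exact core_eq hW0 hz0
  obtain ⟨E, hE⟩ : ∃ E : ℝ, E = Real.exp (-(|ω| / (4 * z))) := ⟨_, rfl⟩
  have hE0 : 0 < E := by rw [hE]; exact Real.exp_pos _
  have hE1 : E ≤ Real.exp 1 * Real.exp (-(v / 4)) := by
    rw [hE, hv, hW]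
    exact E_le hz1
  have hpol : ∀ P : ℝ, 0 ≤ P → P ≤ (1 + s ^ 2) ^ 5 → P * E ≤ K := by
    intro P hP hP'
    have h3 := pol hv0.le
    rw [hs2] at hP'
    calc P * E ≤ P * (Real.exp 1 * Real.exp (-(v / 4))) := mul_le_mul_of_nonneg_left hE1 hP
      _ = Real.exp 1 * (P * Real.exp (-(v / 4))) := by ring
      _ ≤ Real.exp 1 * ((1 + v) ^ 5 * Real.exp (-(v / 4))) := by gcongr
      _ ≤ Real.exp 1 * (122880 * Real.exp 1) := by gcongr
      _ = K := hK.symm
  obtain ⟨sp7, sp9, sp72⟩ := sp hs0.le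
  obtain ⟨Q, hQ⟩ : ∃ Q : ℝ, Q = √((R : ℝ) / m) * T ^ (-(1 / 2 : ℝ)) := ⟨_, rfl⟩
  have hQ0 : 0 < Q := by rw [hQ]; positivity
  have hgeo : (√((m : ℝ) * (m + R)))⁻¹ * R / √z ≤ Q := by
    rw [hQ]
    exact geo hm0 hR0 hT0 hzdef
  have hq0 : 0 ≤ (√((m : ℝ) * (m + R)))⁻¹ := by positivity
  obtain ⟨q, hq⟩ : ∃ q : ℝ, q = (√((m : ℝ) * (m + R)))⁻¹ := ⟨_, rfl⟩
  rw [← hq] at hq0 hgeo
  have hN1 : ‖∑ r ∈ Finset.range L, bt σ 4 T y ω m (m + R + r)‖ ≤ CA * Q * (s ^ 7 * E) := by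
    refine (hA σ T y ω m R L hσ0 hσ1 hT0 hm hR hL (hz ▸ hz1)).trans ?_
    rw [← hz, ← hW, ← hq, ← hE, ← hv]
    calc CA * q * W ^ (-(1 / 2 : ℝ)) * v ^ 4 * E * R = CA * q * (W ^ (-(1 / 2 : ℝ)) * v ^ 4) * E * R := by
          ring
      _ = CA * (q * R / √z) * (s ^ 7 * E) := by
          rw [hcore]
          ring
      _ ≤ CA * Q * (s ^ 7 * E) := by gcongr
  have hy1 : 1 ≤ 1 + |y| := by linarith [abs_nonneg y]
  -- conclusion from the trivial bound
  have hfin : ∀ X : ℝ, 0 < X → s ^ 7 * E ≤ K * X →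
      ‖∑ r ∈ Finset.range L, bt σ 4 T y ω m (m + R + r)‖ ≤
        K * (CA + 5 * CB) * (1 + |y|) * √((R : ℝ) / m) * T ^ (-(1 / 2 : ℝ)) * X := by
    intro X hX hX1
    calc ‖∑ r ∈ Finset.range L, bt σ 4 T y ω m (m + R + r)‖ ≤ CA * Q * (s ^ 7 * E) := hN1
      _ ≤ CA * Q * (K * X) := by gcongr
      _ = K * CA * 1 * Q * X := by ring
      _ ≤ K * (CA + 5 * CB) * (1 + |y|) * Q * X := by
          have : CA ≤ CA + 5 * CB := by linarith
          gcongr
      _ = _ := by rw [hQ]; ring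
  by_cases hRT : T ^ (1 / 4 : ℝ) ≤ (R : ℝ)
  · rw [if_pos hRT]
    obtain ⟨τ, hτ⟩ : ∃ τ : ℝ, τ = T ^ (-(η / 8)) := ⟨_, rfl⟩
    have hτ0 : 0 < τ := by rw [hτ]; positivity
    have hτ1 : τ ≤ 1 := by
      rw [hτ]
      exact Real.rpow_le_one_of_one_le_of_nonpos hT1 (by linarith)
    rw [← hτ]
    by_cases hva : v ≤ τ
    · refine hfin τ hτ0 ?_
      have hs1 : s ≤ 1 := by
        have h3 : s ^ 2 ≤ 1 := by rw [hs2]; exact hva.trans hτ1
        exact (sq_le_one_iff₀ hs0.le).1 h3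
      have h3 : s ^ 7 ≤ τ := by
        calc s ^ 7 = s ^ 2 * s ^ 5 := by ring
          _ ≤ s ^ 2 * 1 := by
              have : s ^ 5 ≤ 1 := pow_le_one₀ hs0.le hs1
              gcongr
          _ = v := by rw [mul_one, hs2]
          _ ≤ τ := hva
      have h4 : E ≤ K := by
        have := hpol 1 zero_le_one (one_le_pow₀ (by linarith [sq_nonneg s]))
        linarith
      calc s ^ 7 * E ≤ τ * K := mul_le_mul h3 h4 hE0.le hτ0.le
        _ = K * τ := mul_comm _ _
    · push Not at hva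
      by_cases hvb : τ⁻¹ ≤ v
      · refine hfin τ hτ0 ?_
        have h3 : 1 ≤ v * τ := by
          rw [inv_le_iff_one_le_mul₀ hτ0] at hvb
          linarith
        have h4 := hpol (s ^ 9) (by positivity) sp9
        calc s ^ 7 * E = s ^ 7 * E * 1 := by ring
          _ ≤ s ^ 7 * E * (v * τ) := by gcongr
          _ = s ^ 9 * E * τ := by rw [← hs2]; ring
          _ ≤ K * τ := by gcongr
      · push Not at hvb
        have ha1 : 1 ≤ a := by linarith
        -- `1/a ≤ v ≤ a`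
        have hτa : τ⁻¹ ≤ a := by
          rw [hτ, ha, ← Real.rpow_neg hT0.le, neg_neg]
          exact Real.rpow_le_rpow_of_exponent_le hT1 (by linarith)
        have hva1 : v ≤ a := hvb.le.trans hτa
        have hva2 : 1 ≤ a * v := by
          have h3 : a⁻¹ ≤ τ := by
            rw [inv_le_comm₀ ha0 hτ0]
            exact hτa
          have h4 : a⁻¹ ≤ v := h3.trans hva.le
          rw [inv_le_iff_one_le_mul₀ ha0] at h4
          linarith
        have hRa : a ^ 2 ≤ R := by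
          rw [hap 2]
          norm_num
          norm_num at hRT
          exact hRT
        have hGa : a ^ 5 / 2 ≤ G := by
          rw [hG, ← mul_div_assoc, le_div_iff₀ hmR0, hTa]
          have h3 : a ^ 5 ≤ a ^ 3 * R := by
            calc a ^ 5 = a ^ 3 * a ^ 2 := by ring
              _ ≤ a ^ 3 * R := by gcongr
          have h4 : (R : ℝ) ≤ a ^ 3 * R := le_mul_of_one_le_left hR0.le (one_le_pow₀ ha1)
          have h5 : (m : ℝ) + R ≤ 2 * (a ^ 3 * R) := by linarith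
          calc a ^ 5 / 2 * (m + R) ≤ a ^ 5 / 2 * (2 * (a ^ 3 * R)) := by gcongr
            _ = a ^ 8 * R := by ring
        have hGT : G ≤ T := by
          rw [hG]
          refine mul_le_of_le_one_right hT0.le ?_
          rw [div_le_one hmR0]
          linarith
        have hkw : kap m R * |ω| = G * v - kap m R := by
          have h3 : |ω| = v * z - 1 := by
            rw [hv, div_mul_cancel₀ _ hz0.ne', hW]
            ring
          rw [h3, ← hkz]
          ring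
        have ha4 : (81 : ℝ) ≤ a ^ 4 := by
          have := pow_le_pow_left₀ (by norm_num) ha3 4
          norm_num at this
          exact this
        have hklow : a ^ 4 / 4 ≤ kap m R * |ω| := by
          rw [hkw]
          have h3 : a ^ 4 / 2 ≤ G * v := by
            calc a ^ 4 / 2 = a ^ 4 / 2 * 1 := by ring
              _ ≤ a ^ 4 / 2 * (a * v) := by gcongr
              _ = a ^ 5 / 2 * v := by ring
              _ ≤ G * v := by gcongr
          linarith
        have hkpos : 0 < kap m R * |ω| := by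
          have : 0 < a ^ 4 / 4 := by positivity
          linarith
        have hk2 : 2 * Real.pi ≤ kap m R * |ω| := by
          have := Real.pi_le_four
          linarith
        have hk3 : kap m R * |ω| ≤ (R : ℝ) ^ 5 := by
          rw [hkw]
          have h3 : G * v ≤ a ^ 9 := by
            calc G * v ≤ a ^ 8 * a := by
                  rw [← hTa]
                  gcongr
              _ = a ^ 9 := by ring
          have h4 : a ^ 10 ≤ (R : ℝ) ^ 5 := by
            calc a ^ 10 = (a ^ 2) ^ 5 := by ring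
              _ ≤ (R : ℝ) ^ 5 := by gcongr
          have h5 : a ^ 9 ≤ a ^ 10 := pow_le_pow_right₀ ha1 (by norm_num)
          linarith
        have hN2 := hB σ T y ω m R L hσ0 hσ1 hT0 hm hR hL (hz ▸ hz1) hk2 hk3
        rw [← hz, ← hW, ← hq, ← hE, ← hv] at hN2
        have hsum : (R : ℝ) ^ (1 - η) + R / (kap m R * |ω|) ≤ R * (5 * τ) := by
          have h3 : (R : ℝ) ^ (1 - η) ≤ R * τ := by
            rw [Real.rpow_sub hR0, Real.rpow_one, div_eq_mul_inv, ← Real.rpow_neg hR0.le]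
            refine mul_le_mul_of_nonneg_left ?_ hR0.le
            calc (R : ℝ) ^ (-η) ≤ (T ^ (1 / 4 : ℝ)) ^ (-η) :=
                  Real.rpow_le_rpow_of_nonpos (by positivity) hRT (by linarith)
              _ = T ^ (1 / 4 * -η) := by rw [← Real.rpow_mul hT0.le]
              _ ≤ τ := by
                  rw [hτ]
                  exact Real.rpow_le_rpow_of_exponent_le hT1 (by linarith)
          have h4 : R / (kap m R * |ω|) ≤ R * (4 * τ) := by
            rw [div_le_iff₀ hkpos]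
            have h5 : 1 ≤ 4 * τ * (a ^ 4 / 4) := by
              have h6 : a ^ 1 ≤ a ^ 4 := pow_le_pow_right₀ ha1 (by norm_num)
              have h7 : 1 ≤ τ * a := by
                have := hτa
                rw [inv_le_iff_one_le_mul₀ hτ0] at this
                linarith
              calc (1 : ℝ) ≤ τ * a := h7
                _ ≤ τ * a ^ 4 := by
                    rw [pow_one] at h6
                    gcongr
                _ = 4 * τ * (a ^ 4 / 4) := by ring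
            calc (R : ℝ) = R * 1 := by ring
              _ ≤ R * (4 * τ * (a ^ 4 / 4)) := by gcongr
              _ ≤ R * (4 * τ * (kap m R * |ω|)) := by gcongr
              _ = R * (4 * τ) * (kap m R * |ω|) := by ring
          linarith
        have h72 := hpol (s ^ 7 * (1 + s ^ 2)) (by positivity) sp72
        calc ‖∑ r ∈ Finset.range L, bt σ 4 T y ω m (m + R + r)‖ ≤
            CB * (1 + |y|) * q * W ^ (-(1 / 2 : ℝ)) * v ^ 4 * (1 + v) * E *
              ((R : ℝ) ^ (1 - η) + R / (kap m R * |ω|)) := hN2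
          _ ≤ CB * (1 + |y|) * q * W ^ (-(1 / 2 : ℝ)) * v ^ 4 * (1 + v) * E * (R * (5 * τ)) := by
              gcongr
          _ = CB * (1 + |y|) * q * (W ^ (-(1 / 2 : ℝ)) * v ^ 4) * (1 + v) * E * (R * (5 * τ)) := by
              ring
          _ = 5 * CB * (1 + |y|) * (q * R / √z) * (s ^ 7 * (1 + s ^ 2) * E) * τ := by
              rw [hcore, hs2]
              ring
          _ ≤ 5 * CB * (1 + |y|) * Q * K * τ := by gcongr
          _ = K * (5 * CB) * (1 + |y|) * Q * τ := by ring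
          _ ≤ K * (CA + 5 * CB) * (1 + |y|) * Q * τ := by
              have : 5 * CB ≤ CA + 5 * CB := by linarith
              gcongr
          _ = _ := by rw [hQ]; ring
  · rw [if_neg hRT]
    refine hfin 1 one_pos ?_
    rw [mul_one]
    exact hpol (s ^ 7) (by positivity) sp7

end Pool.Agent.U394.GZ
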