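import Pool.Agent.U79.GZ.Stm3

/-!
# Project GZ, package BONK (helper394)

The Bonferroni inequalities for the kernels with `2 ^ t` elements, from those for `t = 0` (`S_BON`).
With `I_k N = (N - 1) (N - 2) ... (N - 2 ^ (k - 1))` one has, for `n = t + d`,
`I_{t + j} (2 ^ n) = I_t (2 ^ n) * 2 ^ (t j) * I_j (2 ^ d)`, so that every term is the constant
`2 ^ (- t (t - 1) / 2) * ak t * I_t (2 ^ n)` times the term of `S_BON` for `d`; the constant is
nonnegative, and equal to one for `d = 0`. For `n < t` both sides vanish.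
-/

set_option autoImplicit false
set_option linter.unusedVariables false

open scoped Classical

namespace Pool.Agent.U394.GZ

open Finset hiding ext
open Filter
open Pool.Agent.U79.GZ (ak Ik bk S_BON S_BONK)

theorem Ik_zero {k n : ℕ} (h : n < k) : Ik k (2 ^ n) = 0 := by
  unfold Ik
  exact prod_eq_zero (mem_range.2 h) (sub_self _)

theorem Ik_split (t j d : ℕ) :
    Ik (t + j) (2 ^ (t + d)) = Ik t (2 ^ (t + d)) * (2 ^ (t * j) * Ik j (2 ^ d)) := by
  unfold Ik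
  rw [prod_range_add]
  congr 1
  have h : ∀ i ∈ range j, ((2 : ℝ) ^ (t + d) - 2 ^ (t + i)) = 2 ^ t * (2 ^ d - 2 ^ i) := by
    intro i _
    rw [pow_add, pow_add]; ring
  rw [prod_congr rfl h, prod_mul_distrib, prod_const, card_range, pow_mul]

theorem ak_nonneg (k : ℕ) : 0 ≤ ak k := by
  unfold ak
  refine prod_nonneg fun i _ => ?_
  have h : (1 : ℝ) ≤ 2 ^ (i + 1) := one_le_pow₀ (by norm_num)
  exact div_nonneg zero_le_one (by linarith)

theorem Ik_nonneg (k n : ℕ) (h : k ≤ n) : 0 ≤ Ik k (2 ^ n) := by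
  unfold Ik
  refine prod_nonneg fun i hi => ?_
  have h1 : (2 : ℝ) ^ i ≤ 2 ^ n := pow_le_pow_right₀ (by norm_num) ((mem_range.1 hi).le.trans h)
  linarith

theorem Ik_self (t : ℕ) : (1 / 2 : ℝ) ^ (t * (t - 1) / 2) * ak t * Ik t (2 ^ t) = 1 := by
  have e1 : Ik t (2 ^ t) = (2 : ℝ) ^ (∑ i ∈ range t, i) * ∏ i ∈ range t, ((2 : ℝ) ^ (i + 1) - 1) := by
    unfold Ik
    rw [← prod_range_reflect (fun i => ((2 : ℝ) ^ (i + 1) - 1)) t, ← prod_pow_eq_pow_sum,
      ← prod_mul_distrib]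
    refine prod_congr rfl fun i hi => ?_
    have hi' := mem_range.1 hi
    have : (2 : ℝ) ^ t = 2 ^ i * 2 ^ (t - 1 - i + 1) := by
      rw [← pow_add]; congr 1; omega
    rw [this]; ring
  have e2 : ∑ i ∈ range t, i = t * (t - 1) / 2 := sum_range_id t
  have e3 : ak t * ∏ i ∈ range t, ((2 : ℝ) ^ (i + 1) - 1) = 1 := by
    unfold ak
    rw [← prod_mul_distrib]
    refine prod_eq_one fun i _ => ?_
    have h : (2 : ℝ) ≤ 2 ^ (i + 1) := by
      calc (2 : ℝ) = 2 ^ 1 := (pow_one _).symm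
        _ ≤ 2 ^ (i + 1) := pow_le_pow_right₀ (by norm_num) (by omega)
    have h' : (2 : ℝ) ^ (i + 1) - 1 ≠ 0 := by linarith
    field_simp
  rw [e1, e2]
  calc (1 / 2 : ℝ) ^ (t * (t - 1) / 2) * ak t *
        (2 ^ (t * (t - 1) / 2) * ∏ i ∈ range t, ((2 : ℝ) ^ (i + 1) - 1))
      = ((1 / 2 : ℝ) * 2) ^ (t * (t - 1) / 2) * (ak t * ∏ i ∈ range t, ((2 : ℝ) ^ (i + 1) - 1)) := by
        rw [mul_pow]; ring
    _ = 1 := by rw [e3]; norm_num

/-- GZ-BONK: the Bonferroni inequalities for the kernels with `2 ^ t` elements. -/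
theorem t_BONK : Pool.Agent.U79.GZ.S_BONK := by
  intro hB t n K
  rcases lt_or_ge n t with h | h
  · have hz : ∀ k, Ik (t + k) (2 ^ n) = 0 := fun k => Ik_zero (by omega)
    rw [if_neg h.ne, hz]
    have : ∑ k ∈ range (K + 1), (-1 : ℝ) ^ k * (bk t k * Ik (t + k) (2 ^ n)) = 0 :=
      sum_eq_zero fun k _ => by rw [hz]; ring
    rw [this]
    simp
  · obtain ⟨d, rfl⟩ := Nat.exists_eq_add_of_le h
    set c : ℝ := (1 / 2 : ℝ) ^ (t * (t - 1) / 2) * ak t * Ik t (2 ^ (t + d)) with hc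
    have hc0 : 0 ≤ c := mul_nonneg (mul_nonneg (by positivity) (ak_nonneg t))
      (Ik_nonneg t (t + d) (by omega))
    have hk : ∀ j, bk t j * Ik (t + j) (2 ^ (t + d)) = c * (ak j * Ik j (2 ^ d)) := by
      intro j
      rw [Ik_split, hc]
      unfold bk
      have : (1 / 2 : ℝ) ^ (t * j) * 2 ^ (t * j) = 1 := by
        rw [← mul_pow]; norm_num
      calc (1 / 2 : ℝ) ^ (t * j) * ak j * ((1 / 2 : ℝ) ^ (t * (t - 1) / 2) * ak t) *
            (Ik t (2 ^ (t + d)) * (2 ^ (t * j) * Ik j (2 ^ d)))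
          = ((1 / 2 : ℝ) ^ (t * j) * 2 ^ (t * j)) * ((1 / 2 : ℝ) ^ (t * (t - 1) / 2) * ak t *
            Ik t (2 ^ (t + d)) * (ak j * Ik j (2 ^ d))) := by ring
        _ = _ := by rw [this, one_mul]
    have hone : (if t + d = t then (1 : ℝ) else 0) = c * (if d = 0 then (1 : ℝ) else 0) := by
      by_cases hd : d = 0
      · subst hd
        rw [if_pos (by omega), if_pos rfl, hc, Nat.add_zero, Ik_self, one_mul]
      · rw [if_neg (by omega), if_neg hd, mul_zero]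
    have hs : ∑ k ∈ range (K + 1), (-1 : ℝ) ^ k * (bk t k * Ik (t + k) (2 ^ (t + d))) =
        c * ∑ k ∈ range (K + 1), (-1 : ℝ) ^ k * (ak k * Ik k (2 ^ d)) := by
      rw [mul_sum]
      refine sum_congr rfl fun k _ => ?_
      rw [hk]; ring
    rw [hone, hs, hk, ← mul_sub, abs_mul, abs_of_nonneg hc0]
    exact mul_le_mul_of_nonneg_left (hB d K) hc0
end Pool.Agent.U394.GZ
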