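import Pool.Agent.U79.GZ.Stm6

/-!
# Project GZ (helper79), package CNV3 (helper394): the lower bound for `2 ^ rank · #Ш[2]` by the Selmer group

The theorem `bound` is `Pool.Agent.U171.GE.t_CNV2` (helper171) for classes of any sign; the local solubility at
the real place comes from `Qs ℝ (-2 a) (a² - 4 b) d` (`loc_real`). The Selmer group is a finite set of squarefree
integers; `d` and `e` are partners if `d e (a² - 4 b)` is a square. Every element has at most one partner, and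
the set `T` of those that are not larger than their partner has at least half of the elements.
-/

set_option autoImplicit false
set_option linter.style.haveILetI false
set_option linter.unusedSectionVars false

attribute [-instance] DivisionRing.toRatAlgebra

open NumberField IsDedekindDomain

namespace Pool.Agent.U394.GZ

open WeierstrassCurve

open Pool.Agent.Y682

open Pool.Agent.TH841.SH (IsR IsX gf isX_zero isX_some not_isX)

open Pool.Agent.TH841.SH.D (Pt act Gal Coch IsCoc IsCob LocTriv cob)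

open Pool.Agent.Y698.SG.Cv (WF LocI coc T0)

open Pool.Agent.Y945.SG (coc_pos coc_neg fixm)

open Pool.Agent.U171.GE

open Pool.Agent.U115.GE

open Pool.Agent.TH841.NF.D (rk Sha)

open Pool.Agent.H921R2.TatePole (below nm_eq)

/-- the real place, `d` and `a² - 4 b` of the same sign -/
theorem loc_real_sq (a b d : ℤ) (hb : b ≠ 0) (hab : a ^ 2 - 4 * b ≠ 0) (hd : d ≠ 0)
    (hsq : IsSquare (d : ℝ) ∨ IsSquare ((d : ℝ) * ((a : ℝ) ^ 2 - 4 * b))) : LocI ℝ a b d := by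
  by_cases hd0 : 0 < d
  · exact (Pool.Agent.Y971.SG.Lq.t_LQ a b d hb hab hd).2 hd0
  have hdneg : d < 0 := lt_of_le_of_ne (not_lt.1 hd0) hd
  have hdR : (d : ℝ) < 0 := by exact_mod_cast hdneg
  have hc : ((a ^ 2 - 4 * b : ℤ) : ℝ) = (a : ℝ) ^ 2 - 4 * b := by push_cast; ring
  have hcneg : (a : ℝ) ^ 2 - 4 * b ≤ -1 := by
    rcases hsq with h | h
    · exact absurd h.nonneg (not_le.2 hdR)
    · have h1 := h.nonneg
      have h2 : a ^ 2 - 4 * b ≤ -1 := by
        by_contra hcon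
        have h3 : 0 < a ^ 2 - 4 * b := by omega
        have h4 : (0 : ℝ) < (a : ℝ) ^ 2 - 4 * b := by rw [← hc]; exact_mod_cast h3
        have h5 := mul_neg_of_neg_of_pos hdR h4
        linarith
      rw [← hc]
      exact_mod_cast h2
  -- the point with `X = -t`
  set t : ℝ := 1 / (2 * (1 + |(a : ℝ)|)) with ht
  have ha0 : 0 ≤ |(a : ℝ)| := abs_nonneg _
  have ht0 : 0 < t := by rw [ht]; positivity
  have ht1 : t * (2 * (1 + |(a : ℝ)|)) = 1 := by
    rw [ht]; field_simp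
  have hta : t ≤ 1 := by nlinarith
  have hneg : t ^ 2 + 2 * a * t + ((a : ℝ) ^ 2 - 4 * b) ≤ 0 := by
    have h1 : (a : ℝ) ≤ |(a : ℝ)| := le_abs_self _
    nlinarith
  have hpos : 0 ≤ (-t) ^ 3 - 2 * (a : ℝ) * (-t) ^ 2 + ((a : ℝ) ^ 2 - 4 * (b : ℝ)) * (-t) := by
    have e : (-t) ^ 3 - 2 * (a : ℝ) * (-t) ^ 2 + ((a : ℝ) ^ 2 - 4 * (b : ℝ)) * (-t) =
        t * -(t ^ 2 + 2 * a * t + ((a : ℝ) ^ 2 - 4 * b)) := by ring
    rw [e]
    exact mul_nonneg ht0.le (by linarith)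
  have hr : 0 ≤ t / -(d : ℝ) := div_nonneg ht0.le (by linarith)
  refine ⟨-t, √((-t) ^ 3 - 2 * (a : ℝ) * (-t) ^ 2 + ((a : ℝ) ^ 2 - 4 * (b : ℝ)) * (-t)), √(t / -(d : ℝ)),
    neg_ne_zero.2 ht0.ne', Real.sq_sqrt hpos, ?_⟩
  rw [Real.sq_sqrt hr]
  field_simp

/-- the real place -/
theorem loc_real (a b d : ℤ) (hb : b ≠ 0) (hab : a ^ 2 - 4 * b ≠ 0) (hd : d ≠ 0)
    (h : Qs ℝ (-2 * a) (a ^ 2 - 4 * b) d) : LocI ℝ a b d :=
  loc_of_qs a b d hd h (loc_real_sq a b d hb hab hd)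

open scoped Classical in
/-- the bound of `t_CNV2` for a set of everywhere locally soluble classes of any sign -/
theorem bound {a b : ℤ} (hb : b ≠ 0) (hab : a ^ 2 - 4 * b ≠ 0) (nb : ¬ IsSquare (b : ℚ))
    (nab : ¬ IsSquare ((a : ℚ) ^ 2 - 4 * b)) (T : Finset ℤ)
    (hT : ∀ d ∈ T, d ≠ 0 ∧ LocI ℝ a b d ∧ ∀ (p : ℕ) [Fact p.Prime], LocI ℚ_[p] a b d)
    (hne : ∀ d ∈ T, ∀ e ∈ T, d ≠ e → ¬ IsSquare ((d * e : ℤ) : ℚ) ∧
      ¬ IsSquare (((d * e : ℤ) : ℚ) * ((a : ℚ) ^ 2 - 4 * b)))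
    (hfin : Finite {x : Sha (wc (a : ℚ) (b : ℚ)) // 2 • x = 0}) :
    T.card ≤ 2 ^ rk (wc (a : ℚ) (b : ℚ)) *
      Nat.card {x : Sha (wc (a : ℚ) (b : ℚ)) // 2 • x = 0} := by
  have hTT : IsT (WF ℚ a b) (a : ℚ) (b : ℚ) := wf_isT ℚ hb hab
  rw [← wf_eq] at hfin ⊢
  obtain ⟨hfZ, hcard⟩ := Zc_upper hTT
  -- the cocycles of `T`
  have hZ : ∀ x : {d : ℤ // d ∈ T}, coc ℚ hb x.1 ∈ Zc (WF ℚ a b) := fun x =>
    coc_zc hb hab (hT x.1 x.2).1 (fun v => by
      have : Fact (below v : ℕ).Prime := ⟨(below v).2⟩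
      exact loc_map (Pool.Agent.Y698.SG.Th.pth (v := v) (p := (below v : ℕ)) (nm_eq v).2.2)
        ((hT x.1 x.2).2.2 _)) (hT x.1 x.2).2.1
  -- the point of order two
  obtain ⟨R1, hR1, hX1⟩ := exists_tors hTT
  obtain ⟨g, hg, hgσ⟩ := tors_g hTT hR1 hX1
  have hz1 : dl R1 ∈ Zc (WF ℚ a b) := ⟨dl_sha R1, fun σ => by
    have h1 : dl R1 + dl R1 = 0 := by rw [← dl_add, hR1, dl_zero]
    exact congrFun h1 σ⟩
  -- the point of order four
  obtain ⟨R, hR⟩ := exists_half hTT (T0 ℚ (a := a) hb (AlgebraicClosure ℚ))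
  have hT0X : IsX ((WF ℚ a b).baseChange (AlgebraicClosure ℚ)) 0
      (T0 ℚ (a := a) hb (AlgebraicClosure ℚ)) := isX_some _
  have hT0T : T0 ℚ (a := a) hb (AlgebraicClosure ℚ) + T0 ℚ (a := a) hb (AlgebraicClosure ℚ) = 0 := by
    obtain ⟨r, s, hRR, hrs1, hrs2, hr0, hs0, hrs⟩ := (hTT.base (L := AlgebraicClosure ℚ)).roots
    exact (@IsR.add_self _ _ _ _ _ _ (Classical.decEq _) hRR two_ne_zero _ _
      (Pool.Agent.Y698.SG.Cv.ns0 ℚ hb (AlgebraicClosure ℚ))).2 rfl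
  have h2R : dl R + dl R = 0 := by
    rw [← dl_add, ← hR]
    funext σ
    rw [dl_apply, tors_fix hTT hT0T hT0X σ, sub_self]
    rfl
  have hz2 : dl R ∈ Zc (WF ℚ a b) := ⟨dl_sha R, fun σ => congrFun h2R σ⟩
  obtain ⟨σ0, hσ0⟩ : ∃ σ0 : Gal ℚ, ¬ IsX ((WF ℚ a b).baseChange (AlgebraicClosure ℚ)) 0
      (dl R σ0) := by
    by_contra hcon
    push Not at hcon
    refine nb (half_sq ℚ hTT (R := R) (by rw [← hR]; exact hT0X)
      (by rw [← hR]; exact T0_ne ℚ hb) (fun σ => hcon σ) (fun σ => congrFun h2R σ))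
  let z : {d : ℤ // d ∈ T} → Zc (WF ℚ a b) := fun x => ⟨coc ℚ hb x.1, hZ x⟩
  let z1 : Zc (WF ℚ a b) := ⟨dl R1, hz1⟩
  let z2 : Zc (WF ℚ a b) := ⟨dl R, hz2⟩
  let F : {d : ℤ // d ∈ T} × Bool × Bool → Zc (WF ℚ a b) := fun x =>
    z x.1 + (if x.2.1 then z1 else 0) + (if x.2.2 then z2 else 0)
  have hFX : ∀ x, IsX ((WF ℚ a b).baseChange (AlgebraicClosure ℚ)) 0 ((F x).1 σ0) ↔
      x.2.2 = false := by
    rintro ⟨x, ε, δ⟩
    have e1 : (F (x, ε, δ)).1 σ0 = (z x).1 σ0 + (if ε then z1 else 0 : Zc (WF ℚ a b)).1 σ0 +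
      (if δ then z2 else 0 : Zc (WF ℚ a b)).1 σ0 := rfl
    have h1 : IsX ((WF ℚ a b).baseChange (AlgebraicClosure ℚ)) 0
        ((if ε then z1 else 0 : Zc (WF ℚ a b)).1 σ0) := by
      cases ε
      · exact isX_zero 0
      · exact isX_sub hTT hR1 σ0
    have h2 : IsX ((WF ℚ a b).baseChange (AlgebraicClosure ℚ)) 0
        ((if δ then z2 else 0 : Zc (WF ℚ a b)).1 σ0) ↔ δ = false := by
      cases δ
      · exact ⟨fun _ => rfl, fun _ => isX_zero 0⟩
      · exact ⟨fun h => absurd h hσ0, fun h => absurd h (by simp)⟩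
    have h3 := (isX_add hTT ((z x).2.2 σ0) ((if ε then z1 else 0 : Zc (WF ℚ a b)).2.2 σ0)).2
      ⟨fun _ => h1, fun _ => coc_isX ℚ hb x.1 σ0⟩
    have h4 := isX_add hTT ((z x + (if ε then z1 else 0 : Zc (WF ℚ a b))).2.2 σ0)
      ((if δ then z2 else 0 : Zc (WF ℚ a b)).2.2 σ0)
    rw [e1]
    refine h4.trans ⟨fun h => h2.1 (h.1 h3), fun h => ⟨fun _ => h2.2 h, fun _ => h3⟩⟩
  have hF : Function.Injective F := by
    rintro ⟨x, ε, δ⟩ ⟨y, ε', δ'⟩ h
    have hδ : δ = δ' := by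
      have h1 := hFX (x, ε, δ)
      have h2 := hFX (y, ε', δ')
      rw [h] at h1
      have h3 : δ = false ↔ δ' = false := h1.symm.trans h2
      cases δ <;> cases δ' <;> simp_all
    subst hδ
    have h5 : z x + (if ε then z1 else 0) = z y + (if ε' then z1 else 0) := add_right_cancel h
    have hxx : ∀ σ, (z x).1 σ + (z x).1 σ = 0 := (z x).2.2
    have hyy : ∀ σ, (z y).1 σ + (z y).1 σ = 0 := (z y).2.2
    have h11 : ∀ σ, z1.1 σ + z1.1 σ = 0 := z1.2.2
    have hxy : ∀ σ, coc ℚ (a := a) hb (x.1 * y.1) σ = (z x).1 σ + (z y).1 σ := fun σ =>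
      coc_add' ℚ hb x.1 y.1 (hT x.1 x.2).1 (hT y.1 y.2).1 σ
    have key : (∀ σ, coc ℚ (a := a) hb (x.1 * y.1) σ = z1.1 σ) → False := by
      intro h6
      have h7 : IsSquare (((x.1 * y.1 : ℤ) : ℚ) * ((a : ℚ) ^ 2 - 4 * b)) := by
        refine sq_of_coc_tors ℚ hb hg fun σ => ⟨fun h8 => ?_, fun h8 => ?_⟩
        · refine (hgσ σ).1 ?_
          rw [h6] at h8
          exact sub_eq_zero.1 h8
        · refine (hgσ σ).2 ?_
          rw [h6] at h8
          exact fun h9 => h8 (sub_eq_zero.2 h9)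
      by_cases hxe : x.1 = y.1
      · apply nab
        rw [← hxe] at h7
        obtain ⟨w, hw⟩ := h7
        have hx0 : (x.1 : ℚ) ≠ 0 := by exact_mod_cast (hT x.1 x.2).1
        refine ⟨w / x.1, ?_⟩
        push_cast at hw
        field_simp
        linear_combination hw
      · exact (hne x.1 x.2 y.1 y.2 hxe).2 h7
    have hεε : ε = ε' := by
      cases ε <;> cases ε'
      · rfl
      · exfalso
        refine key fun σ => ?_
        have h6 : (z x).1 σ + 0 = (z y).1 σ + z1.1 σ := congrFun (congrArg Subtype.val h5) σ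
        rw [hxy, ← add_zero ((z x).1 σ), h6, add_assoc, add_comm (z1.1 σ), ← add_assoc, hyy, zero_add]
      · exfalso
        refine key fun σ => ?_
        have h6 : (z x).1 σ + z1.1 σ = (z y).1 σ + 0 := congrFun (congrArg Subtype.val h5) σ
        rw [hxy, ← add_zero ((z y).1 σ), ← h6, ← add_assoc, hxx, zero_add]
      · rfl
    subst hεε
    have h6 : z x = z y := add_right_cancel h5
    have h7 : x = y := by
      by_contra hcon
      have hxe : x.1 ≠ y.1 := fun h8 => hcon (Subtype.ext h8)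
      refine (hne x.1 x.2 y.1 y.2 hxe).1 (sq_of_coc ℚ (a := a) hb fun σ => ?_)
      rw [hxy, ← h6, hxx]
    rw [h7]
  have h1 := Nat.card_le_card_of_injective F hF
  rw [Nat.card_prod, Nat.card_prod, Nat.card_eq_fintype_card, Fintype.card_coe,
    Nat.card_eq_fintype_card, Fintype.card_bool] at h1
  have h2 := h1.trans hcard
  have h3 : 4 * T.card ≤ 4 * (2 ^ rk (WF ℚ a b) *
      Nat.card {x : Sha (WF ℚ a b) // 2 • x = 0}) := by
    calc 4 * T.card = T.card * (2 * 2) := by ring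
      _ ≤ 4 * 2 ^ (Module.finrank ℤ (MP (WF ℚ a b))) *
        Nat.card {x : Pool.Agent.TH841.NF.D.Sha (WF ℚ a b) // 2 • x = 0} := h2
      _ = _ := by rw [mul_assoc]; rfl
  exact Nat.le_of_mul_le_mul_left h3 (by norm_num)


/-- squarefree integers whose product is a square are equal -/
theorem eq_of_sq {d e : ℤ} (hd : Squarefree d) (he : Squarefree e) (h : IsSquare ((d * e : ℤ) : ℚ)) :
    d = e := by
  rw [Rat.isSquare_intCast_iff] at h
  obtain ⟨k, hk⟩ := h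
  have hd0 : d ≠ 0 := hd.ne_zero
  have he0 : e ≠ 0 := he.ne_zero
  have h1 : d ∣ k := (hd.dvd_pow_iff_dvd two_ne_zero).1 ⟨e, by rw [sq, ← hk]⟩
  have h2 : e ∣ k := (he.dvd_pow_iff_dvd two_ne_zero).1 ⟨d, by rw [sq, ← hk, mul_comm]⟩
  have h3 : d ∣ e := by
    obtain ⟨m, rfl⟩ := h1
    refine ⟨m ^ 2, mul_left_cancel₀ hd0 ?_⟩
    rw [hk]; ring
  have h4 : e ∣ d := by
    obtain ⟨m, rfl⟩ := h2
    refine ⟨m ^ 2, mul_right_cancel₀ he0 ?_⟩
    rw [hk]; ring
  rcases Int.associated_iff.1 (associated_of_dvd_dvd h3 h4) with h5 | h5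
  · exact h5
  · exfalso
    subst h5
    have h6 : 0 < e ^ 2 := by positivity
    nlinarith [sq_nonneg k]

open scoped Classical in
/-- GZ-CNV3: the lower bound for `2 ^ rank · #Ш[2]`. -/
theorem t_CNV3 : Pool.Agent.U79.GZ.S_CNV3 := by
  intro a b hb hab nb nab hfin
  by_cases hS : (SelSet (-2 * a) (a ^ 2 - 4 * b)).Finite
  swap
  · have h0 : sel (-2 * a) (a ^ 2 - 4 * b) = 0 := Set.Infinite.ncard hS
    rw [h0]
    exact Nat.zero_le _
  set S : Finset ℤ := hS.toFinset with hSdef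
  have hmS : ∀ d, d ∈ S ↔ Squarefree d ∧ ELS (-2 * a) (a ^ 2 - 4 * b) d := fun d => by
    rw [hSdef, Set.Finite.mem_toFinset]; rfl
  have hsel : sel (-2 * a) (a ^ 2 - 4 * b) = S.card := by
    unfold sel
    rw [Set.ncard_eq_toFinset_card _ hS]
  obtain ⟨c, hc⟩ : ∃ c : ℚ, c = (a : ℚ) ^ 2 - 4 * b := ⟨_, rfl⟩
  have hc0 : c ≠ 0 := by
    rw [hc]
    exact_mod_cast hab
  -- partners
  obtain ⟨P, hP⟩ : ∃ P : ℤ → ℤ → Prop, P = fun d e => IsSquare (((d * e : ℤ) : ℚ) * c) := ⟨_, rfl⟩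
  have hPs : ∀ d e, P d e → P e d := fun d e h => by
    rw [hP] at h ⊢
    simpa only [mul_comm e d] using h
  have hPu : ∀ d e f, d ∈ S → e ∈ S → f ∈ S → P d f → P e f → d = e := by
    intro d e f hd he hf h1 h2
    rw [hP] at h1 h2
    obtain ⟨u, hu⟩ := h1
    obtain ⟨w, hw⟩ := h2
    have hf0 : (f : ℚ) ≠ 0 := by exact_mod_cast ((hmS f).1 hf).1.ne_zero
    refine eq_of_sq ((hmS d).1 hd).1 ((hmS e).1 he).1 ⟨u * w / (f * c), ?_⟩
    push_cast at hu hw ⊢
    have hfc : (f : ℚ) * c ≠ 0 := mul_ne_zero hf0 hc0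
    rw [div_mul_div_comm, eq_div_iff (mul_ne_zero hfc hfc)]
    calc (d : ℚ) * e * (f * c * (f * c)) = (d * f * c) * (e * f * c) := by ring
      _ = u * w * (u * w) := by rw [hu, hw]; ring
  set T : Finset ℤ := S.filter fun d => ∀ e ∈ S, P d e → d ≤ e with hTdef
  have hTS : ∀ d ∈ T, d ∈ S := fun d hd => (Finset.mem_filter.1 hd).1
  have hcard : S.card ≤ 2 * T.card := by
    have hpart : ∀ d ∈ S \ T, ∃ e ∈ T, P d e := by
      intro d hd
      rw [Finset.mem_sdiff] at hd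
      have h1 : ∃ e ∈ S, P d e ∧ e < d := by
        by_contra hcon
        push Not at hcon
        exact hd.2 (Finset.mem_filter.2 ⟨hd.1, hcon⟩)
      obtain ⟨e, heS, hPe, hlt⟩ := h1
      refine ⟨e, Finset.mem_filter.2 ⟨heS, fun f hf hPf => ?_⟩, hPe⟩
      have h2 : f = d := hPu f d e hf hd.1 heS (hPs _ _ hPf) hPe
      rw [h2]
      exact hlt.le
    have h1 : (S \ T).card ≤ T.card := by
      choose! g hg1 hg2 using hpart
      refine Finset.card_le_card_of_injOn g (fun d hd => hg1 d hd) ?_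
      intro d hd e he hde
      have h2 := hg2 d hd
      have h3 := hg2 e he
      rw [← hde] at h3
      exact hPu d e (g d) (Finset.mem_sdiff.1 hd).1 (Finset.mem_sdiff.1 he).1 (hTS _ (hg1 d hd)) h2 h3
    have h2 : S.card ≤ (S \ T).card + T.card := by
      have := Finset.card_sdiff_add_card S T
      exact (Finset.card_le_card Finset.subset_union_left).trans this.ge
    omega
  have hb1 : T.card ≤ 2 ^ rk (wc (a : ℚ) (b : ℚ)) *
      Nat.card {x : Sha (wc (a : ℚ) (b : ℚ)) // 2 • x = 0} := by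
    refine bound hb hab nb nab T (fun d hd => ?_) (fun d hd e he hde => ⟨fun h => ?_, fun h => ?_⟩) hfin
    · obtain ⟨hsf, hR, hp⟩ := (hmS d).1 (hTS d hd)
      have hd0 : d ≠ 0 := hsf.ne_zero
      refine ⟨hd0, loc_real a b d hb hab hd0 hR, fun p _ => ?_⟩
      exact loc_of_qs a b d hd0 (hp p) fun h2 => Pool.Agent.Y587.SG.lq a b d hab hd0 p h2
    · exact hde (eq_of_sq ((hmS d).1 (hTS d hd)).1 ((hmS e).1 (hTS e he)).1 h)
    · have hPde : P d e := by rw [hP, hc]; exact h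
      have h1 := (Finset.mem_filter.1 hd).2 e (hTS e he) hPde
      have h2 := (Finset.mem_filter.1 he).2 d (hTS d hd) (hPs _ _ hPde)
      exact hde (le_antisymm h1 h2)
  rw [hsel]
  exact hcard.trans (Nat.mul_le_mul_left 2 hb1)

end Pool.Agent.U394.GZ
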